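import Pool.Agent.W254.LF.Stm3
import Pool.Agent.W289.SL.PLog

/-!
# LF3-CONST: logarithms of unramified units are divisible by `p`
-/

set_option autoImplicit false

namespace Pool.Agent.W230.LF

open Polynomial Filter Topology Pool.Agent.W289.SL Pool.Agent.W254.LF

/-- a separable polynomial over `F_p` divides `X^q - X`. -/
lemma dvd_frob (p : ℕ) [hp : Fact p.Prime] (g : (ZMod p)[X]) (hg : g.Monic) (hs : g.Separable) :
    ∃ N : ℕ, 1 ≤ N ∧ g ∣ X ^ (p ^ N) - X := by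
  classical
  have : Fintype g.SplittingField := Fintype.ofFinite _
  have : CharP g.SplittingField p := charP_of_injective_algebraMap
    (algebraMap (ZMod p) g.SplittingField).injective p
  obtain ⟨n, -, hn⟩ := FiniteField.card g.SplittingField p
  refine ⟨n, n.2, ?_⟩
  rw [← Polynomial.map_dvd_map' (algebraMap (ZMod p) g.SplittingField)]
  have h1 := (Polynomial.SplittingField.splits g).eq_prod_roots_of_monic (hg.map _)
  rw [h1]
  have hq1 : 1 < p ^ (n : ℕ) := Nat.one_lt_pow n.2.ne' hp.out.one_lt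
  have hne : (X ^ (p ^ (n : ℕ)) - X : (g.SplittingField)[X]) ≠ 0 :=
    FiniteField.X_pow_card_sub_X_ne_zero _ hq1
  simp only [Polynomial.map_sub, Polynomial.map_pow, Polynomial.map_X]
  rw [Multiset.prod_X_sub_C_dvd_iff_le_roots hne]
  rw [Multiset.le_iff_subset (Polynomial.nodup_roots (hs.map))]
  intro r _
  rw [Polynomial.mem_roots hne, Polynomial.IsRoot.def]
  simp only [Polynomial.eval_sub, Polynomial.eval_pow, Polynomial.eval_X]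
  rw [← hn, FiniteField.pow_card, sub_self]

/-- the closed unit ball. -/
def OO (p : ℕ) [Fact p.Prime] : Subring ℂ_[p] where
  carrier := {x | ‖x‖ ≤ 1}
  mul_mem' := by
    intro a b ha hb
    simp only [Set.mem_ofPred_eq] at *
    rw [norm_mul]
    exact mul_le_one₀ ha (norm_nonneg _) hb
  one_mem' := by simp
  add_mem' := by
    intro a b ha hb
    simp only [Set.mem_ofPred_eq] at *
    exact (IsUltrametricDist.norm_add_le_max a b).trans (max_le ha hb)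
  zero_mem' := by simp
  neg_mem' := by
    intro a ha
    simpa using ha

lemma mem_OO (p : ℕ) [Fact p.Prime] (x : ℂ_[p]) : x ∈ OO p ↔ ‖x‖ ≤ 1 := Iff.rfl

/-- values of integer polynomials vanishing mod `p`. -/
lemma norm_aeval_le (p : ℕ) [Fact p.Prime] (R : ℤ[X])
    (hR : R.map (Int.castRingHom (ZMod p)) = 0) (x : ℂ_[p]) (hx : ‖x‖ ≤ 1) :
    ‖aeval x R‖ ≤ ‖(p : ℂ_[p])‖ := by
  rw [Polynomial.aeval_eq_sum_range]
  refine IsUltrametricDist.norm_sum_le_of_forall_le_of_nonneg (norm_nonneg _) fun i _ => ?_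
  have h1 := congrArg (fun P => P.coeff i) hR
  simp only [Polynomial.coeff_map, Polynomial.coeff_zero, eq_intCast] at h1
  rw [ZMod.intCast_zmod_eq_zero_iff_dvd] at h1
  obtain ⟨c, hc⟩ := h1
  rw [hc, zsmul_eq_mul]
  push_cast
  rw [norm_mul, norm_mul, norm_pow]
  have h2 := norm_intCast_le (p := p) c
  have h3 : ‖x‖ ^ i ≤ 1 := pow_le_one₀ (norm_nonneg _) hx
  calc ‖(p : ℂ_[p])‖ * ‖(c : ℂ_[p])‖ * ‖x‖ ^ i ≤ ‖(p : ℂ_[p])‖ * 1 * 1 := by gcongr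
    _ = ‖(p : ℂ_[p])‖ := by ring

lemma norm_int_le_of_zmod (p : ℕ) [Fact p.Prime] (c : ℤ) (h : (c : ZMod p) = 0) :
    ‖(c : ℂ_[p])‖ ≤ ‖(p : ℂ_[p])‖ := by
  rw [ZMod.intCast_zmod_eq_zero_iff_dvd] at h
  obtain ⟨d, rfl⟩ := h
  push_cast
  rw [norm_mul]
  have := norm_intCast_le (p := p) d
  calc ‖(p : ℂ_[p])‖ * ‖(d : ℂ_[p])‖ ≤ ‖(p : ℂ_[p])‖ * 1 := by gcongr
    _ = _ := mul_one _

lemma max3 {p : ℕ} [Fact p.Prime] {a b c : ℂ_[p]} {r : ℝ} (ha : ‖a‖ ≤ r) (hb : ‖b‖ ≤ r)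
    (hc : ‖c‖ ≤ r) : ‖a - b + c‖ ≤ r := by
  refine (IsUltrametricDist.norm_add_le_max _ _).trans (max_le ?_ hc)
  rw [sub_eq_add_neg]
  refine (IsUltrametricDist.norm_add_le_max _ _).trans (max_le ha ?_)
  rwa [norm_neg]

/-- `|L (1 + z)| ≤ |p|` for `|z| ≤ |p|`. -/
lemma log_small (p : ℕ) [hp : Fact p.Prime] (L : ℂ_[p] → ℂ_[p]) (hL : IsIwasawaLog p L)
    (z : ℂ_[p]) (hz : ‖z‖ ≤ ‖(p : ℂ_[p])‖) : ‖L (1 + z)‖ ≤ ‖(p : ℂ_[p])‖ := by
  have hp1 : ‖(p : ℂ_[p])‖ = (p : ℝ)⁻¹ := norm_p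
  have hp2 : (1 : ℝ) < p := by exact_mod_cast hp.out.one_lt
  have hplt : ‖(p : ℂ_[p])‖ < 1 := by rw [hp1]; exact inv_lt_one_of_one_lt₀ hp2
  rw [← (hL.ser z (hz.trans_lt hplt)).tsum_eq]
  refine IsUltrametricDist.norm_tsum_le_of_forall_le_of_nonneg (norm_nonneg _) fun n => ?_
  rw [norm_div, norm_mul, norm_pow, norm_neg, norm_one, one_pow, one_mul, norm_pow]
  have h3 := one_le_norm_natCast (p := p) (n + 1) (by omega)
  have h4 : (n : ℂ_[p]) + 1 = ((n + 1 : ℕ) : ℂ_[p]) := by push_cast; ring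
  rw [h4]
  have hpos : 0 < ‖((n + 1 : ℕ) : ℂ_[p])‖ := by
    rw [norm_pos_iff]
    exact_mod_cast (by omega : n + 1 ≠ 0)
  rw [div_le_iff₀ hpos]
  have h5 : ‖z‖ ^ n * ((n + 1 : ℕ) : ℝ) ≤ 1 := by
    have h6 : ‖z‖ ^ n ≤ ((p : ℝ)⁻¹) ^ n := pow_le_pow_left₀ (norm_nonneg _) (hz.trans hp1.le) n
    have h7 : ((n + 1 : ℕ) : ℝ) ≤ (p : ℝ) ^ n := by
      have : n + 1 ≤ p ^ n := Nat.lt_pow_self hp.out.one_lt
      exact_mod_cast this
    have h8 : (0 : ℝ) < (p : ℝ) ^ n := by positivity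
    calc ‖z‖ ^ n * ((n + 1 : ℕ) : ℝ) ≤ ((p : ℝ)⁻¹) ^ n * (p : ℝ) ^ n := by gcongr
      _ = 1 := by rw [inv_pow]; field_simp
  calc ‖z‖ ^ (n + 1) = ‖z‖ * ‖z‖ ^ n * 1 := by ring
    _ ≤ ‖z‖ * ‖z‖ ^ n * (‖((n + 1 : ℕ) : ℂ_[p])‖ * ((n + 1 : ℕ) : ℝ)) := by gcongr
    _ = (‖z‖ ^ n * ((n + 1 : ℕ) : ℝ)) * (‖z‖ * ‖((n + 1 : ℕ) : ℂ_[p])‖) := by ring
    _ ≤ 1 * (‖(p : ℂ_[p])‖ * ‖((n + 1 : ℕ) : ℂ_[p])‖) := by gcongr
    _ = ‖(p : ℂ_[p])‖ * ‖((n + 1 : ℕ) : ℂ_[p])‖ := by ring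

theorem t_CONST : S_CONST := by
  intro p hp hp2 L hL f hf hsep x a hx hxa
  have hp1 : ‖(p : ℂ_[p])‖ = (p : ℝ)⁻¹ := norm_p
  have hpR : (1 : ℝ) < p := by exact_mod_cast hp.out.one_lt
  have hplt : ‖(p : ℂ_[p])‖ < 1 := by rw [hp1]; exact inv_lt_one_of_one_lt₀ hpR
  obtain ⟨N, hN, hdvd⟩ := dvd_frob p _ (hf.map (Int.castRingHom (ZMod p))) hsep
  have ha1 : ‖(a : ℂ_[p])‖ ≤ 1 := norm_intCast_le a
  have hx1 : ‖x‖ ≤ 1 := by
    have : x = (x - a) + a := by ring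
    rw [this]
    exact (IsUltrametricDist.norm_add_le_max _ _).trans (max_le hxa.le ha1)
  set q := p ^ N with hq
  -- `|x^q - x| ≤ |p|`
  have hxq : ‖x ^ q - x‖ ≤ ‖(p : ℂ_[p])‖ := by
    have h1 : ((X ^ q - X : ℤ[X]) %ₘ f).map (Int.castRingHom (ZMod p)) = 0 := by
      rw [Polynomial.map_modByMonic _ hf]
      rw [Polynomial.modByMonic_eq_zero_iff_dvd (hf.map _)]
      simpa using hdvd
    have h2 := norm_aeval_le p _ h1 x hx1
    have h3 := congrArg (aeval x) (Polynomial.modByMonic_add_div (X ^ q - X : ℤ[X]) f)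
    rw [map_add, map_mul, hx, zero_mul, add_zero] at h3
    rw [h3] at h2
    simpa using h2
  -- `|a^q - a| ≤ |p|`
  have haq : ‖(a : ℂ_[p]) ^ q - a‖ ≤ ‖(p : ℂ_[p])‖ := by
    have h1 : (((a ^ q - a : ℤ)) : ZMod p) = 0 := by
      push_cast
      rw [hq, ZMod.pow_card_pow, sub_self]
    have := norm_int_le_of_zmod p _ h1
    push_cast at this
    exact this
  -- binomial theorem
  have hodd : Odd q := by
    rw [hq]
    exact (hp.out.odd_of_ne_two hp2).pow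
  obtain ⟨r, hr⟩ := exists_add_pow_prime_pow_eq hp.out (⟨x, hx1⟩ : OO p)
    (⟨-(a : ℂ_[p]), by rw [mem_OO, norm_neg]; exact ha1⟩ : OO p) N
  have hr' := congrArg (fun z : OO p => (z : ℂ_[p])) hr
  simp only [Subring.coe_pow, Subring.coe_add, Subring.coe_mul, Subring.coe_natCast] at hr'
  rw [← hq, hodd.neg_pow] at hr'
  have hr1 : ‖(r : ℂ_[p])‖ ≤ 1 := r.2
  have hyq : ‖(x - a) ^ q - (x - a)‖ ≤ ‖(p : ℂ_[p])‖ := by
    have h1 : (x - a) ^ q - (x - a) = (x ^ q - x) - ((a : ℂ_[p]) ^ q - a) +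
        (p : ℂ_[p]) * x * (-a) * r := by
      rw [sub_eq_add_neg x, hr']
      ring
    rw [h1]
    refine max3 hxq haq ?_
    rw [norm_mul, norm_mul, norm_mul, norm_neg]
    calc ‖(p : ℂ_[p])‖ * ‖x‖ * ‖(a : ℂ_[p])‖ * ‖(r : ℂ_[p])‖ ≤ ‖(p : ℂ_[p])‖ * 1 * 1 * 1 := by
          gcongr
      _ = _ := by ring
  have hy0 : x - a ≠ 0 := by
    rw [← norm_pos_iff, hxa]; exact one_pos
  have hq0 : 0 < q := by rw [hq]; exact pow_pos hp.out.pos N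
  have hz : ‖(x - a) ^ (q - 1) - 1‖ ≤ ‖(p : ℂ_[p])‖ := by
    have h1 : (x - a) ^ q - (x - a) = (x - a) * ((x - a) ^ (q - 1) - 1) := by
      obtain ⟨m, hm⟩ : ∃ m, q = m + 1 := ⟨q - 1, by omega⟩
      rw [hm, Nat.add_sub_cancel, pow_succ]
      ring
    rw [h1, norm_mul, hxa, one_mul] at hyq
    exact hyq
  have h1 := log_small p L hL _ hz
  rw [add_sub_cancel, hL.pow hy0, norm_mul] at h1
  have h2 : ‖((q - 1 : ℕ) : ℂ_[p])‖ = 1 := by
    have h3 : ((q - 1 : ℕ) : ℂ_[p]) = (q : ℂ_[p]) + (-1) := by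
      rw [Nat.cast_sub (by omega)]
      push_cast; ring
    have h4 : ‖(q : ℂ_[p])‖ < 1 := by
      rw [hq]
      push_cast
      rw [norm_pow]
      exact pow_lt_one₀ (norm_nonneg _) hplt (by omega)
    rw [h3, IsUltrametricDist.norm_add_eq_max_of_norm_ne_norm]
    · rw [norm_neg, norm_one]
      exact max_eq_right h4.le
    · rw [norm_neg, norm_one]
      exact h4.ne
  rwa [h2, one_mul] at h1

end Pool.Agent.W230.LF
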